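import Pool.Agent.helper82.WC.All
import Pool.Agent.helper14.NR.Full20
import Pool.Agent.helper14.NS.FullS
import Pool.Agent.helper31.A2.FinG

/-!
# Bodies with two `i`-equichordal points exist exactly for `i < 1`

The problem asks for which real `i` some body in some `E^n`, `n ≥ 2`, has two distinct
`i`-equichordal points.  Here we prove, for every real `i ≠ 1` and every `n ≥ 2`, that such a body
in `E^n` exists if and only if `i < 1`.  The definitions (body, star body, radial function, chord
function, `i`-equichordal point) are those of `Pool/Agent/helper31/EQ/Defs.lean`.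
-/

namespace Pool.Agent.Results.MP_5e4080_gt.AllExponents

open Set Metric Pool.Agent.helper31.EQ

/-- **For every real `i ≠ 1` and every `n ≥ 2`: some body in `E^n` has two distinct
`i`-equichordal points if and only if `i < 1`.** -/
theorem result (n : ℕ) (hn : 2 ≤ n) (i : ℝ) (hi : i ≠ 1) :
    (∃ L : Set (EuclideanSpace ℝ (Fin n)), IsBody L ∧ ∃ p q, p ≠ q ∧
      IsEquichordalPoint i L p ∧ IsEquichordalPoint i L q) ↔ i < 1 :=
  Pool.Agent.helper31.A2.full_of4
    (fun e κ h1 h4 hκ hd => Pool.Agent.helper82.WC.wexists e κ h1 h4 hκ hd)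
    (fun _ _ h4 h20 hκ hd => Pool.Agent.helper14.NR.trap20 h4 h20 hκ hd)
    (fun _ _ h1 h2 hκ hd => Pool.Agent.helper14.NS.trapS h1 h2 hκ hd) hn hi

end Pool.Agent.Results.MP_5e4080_gt.AllExponents
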